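import Mathlib
import Pool.Agent.R855.MT.One

/-!
# The Mumford-Tate conjecture for abelian varieties from several places of arbitrary type

Let `A` be an abelian variety over a finitely generated field of complex numbers, `W = H_1(A, ℚ)`
with the polarization form `ω₀`, `T` the tangent space at the origin and `per : W → T` the inclusion;
`V = ℚ_ℓ ⊗ W` is the rational Tate module, with the action `ρ` of the Galois group `Γ` and the
cyclotomic character `χ`.  Let `K` be the algebraic closure of `ℚ_ℓ` and `X = K ⊗ V`.  A subspace of `X`
is *strongly irreducible* if it is a minimal nonzero subspace stable under a subgroup of finite index.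
If the endomorphism ring of `A` over the algebraic closure is `ℤ` there is just one, `X`.

The *local operators* (`IsLocal`) are obtained from

* the operators `γ - 1`, for the elements `γ` of the group with `(γ - 1) ^ 2 = 0` (in the inertia
  groups of places of bad semistable reduction), and
* the slope operators of the Frobenius elements `F`, at places of good or bad reduction: multiplication
  by `w (a) - w (χ F) / 2` on the eigenspace of the eigenvalue `a`, where `w` is a `p`-adic valuation
  (or any other homomorphism from the multiplicative group of `K` to `K`; at a bad place the weight, for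
  instance),

by linear combinations, commutators and by taking *components*: the component of degree `d` of an
operator `y` with respect to the slope operator of `F` is the sum of the `p (t + d) y p t`, where
`p t` is the projection to the eigenspaces of slope `t`.

Hypotheses.

* `hss`, `hF`: the theorems of Faltings (semisimplicity; the endomorphisms of `V` which commute with
  an open subgroup of the Galois group are combinations of endomorphisms of `A`).
* `hplaces`: for every strongly irreducible subspace `U` of dimension at least two there is a local
  operator `N` with `N ^ 2 = 0` such that the defects of `N` on `U` (the rank of `N` on `U`, and the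
  multiplicities of the nonzero eigenvalues of the operators `N N'`, for local operators `N'` with
  `N' ^ 2 = 0`) have greatest common divisor one; or `U` is symplectic and one of the defects is two, or
  odd, or prime to the dimension (`HasLocalOperators`).

Theorem.  Suppose that the strongly irreducible lines are not self-dual and that non-self-dual
strongly irreducible subspaces are not isomorphic to proper twists of each other (there are no
such lines and subspaces for types I, II).  Then the Mumford-Tate conjecture holds for `A`: all Tate
classes in all the tensor powers `(H^1)^{⊗ 2 m}(m)` are linear combinations of Hodge classes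
(`hcen` is the theorem that the Mumford-Tate conjecture holds for the centres of the groups;
Vasiu, Ullmo-Yafaev).  If all strongly irreducible subspaces are symplectic (types I, II) it holds, without
`hcen`, in the strong form: all Tate classes are combinations of products of Hodge classes of degree
two, so that the Mumford-Tate group and the `ℓ`-adic monodromy group are equal to the full
group of the symplectic similitudes that commute with `End(A)`, and the Hodge and the Tate
conjecture hold for all powers of `A`.

Examples.  Let `F` be a Frobenius element at a place of good reduction which is not supersingular,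
with ARBITRARY Newton polygon, and let `p` and `q` be the projections to the parts of `X` of the lowest
and of the highest slope.  Let `y` be the operator `γ - 1` at a place of bad reduction of any toric rank, or
the slope operator of a second Frobenius element, again with any Newton polygon (`g F g⁻¹` for instance).
Then `N = p y q` and `N' = q y p` are local operators (components of `y`) of square zero.  So the
theorem applies to `A` if one nonzero eigenvalue of `p y q y p` on `U` is simple, or more generally
if the multiplicities of these eigenvalues have greatest common divisor one, or if `U` is symplectic and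
one of them is two; in particular if `p y q` or `q y p` has rank one on `U`, for instance if the lowest
slope is simple on `U` and `q y p` is not zero on `U`.  There is no condition on the multiplicities of the slopes
and on the toric rank.  If the Mumford-Tate conjecture is true and `End(A) = ℤ`, with Mumford-Tate group the
group of all symplectic similitudes, this holds for `y` the slope operator of `g F g⁻¹`, for all `g` in a
nonempty open set.

Before, the case of places of bad reduction alone (`AnyToricRank`), and of two ordinary places
or one good place with few coincidences between the ratios of the eigenvalues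
(`FrobeniusPairsOrRatios`) were known.
-/

set_option autoImplicit false

namespace Pool.Agent.Results.MP_33b3f9_ag.MixedPlaces

open Module TensorProduct Pool.Agent.Y126.Notions
open Pool.Agent.H204R3.SP Pool.Agent.H204R3.GP Pool.Agent.W522.U
open Pool.Agent.TH118.MT Pool.Agent.R855.MT

theorem result (ℓ : ℕ) [Fact ℓ.Prime]
    -- the complex abelian variety `A` with a polarization
    {W T : Type} [AddCommGroup W] [Module ℚ W] [FiniteDimensional ℚ W] [AddCommGroup T] [Module ℂ T]
    (per : W →+ T) (ω₀ : W →ₗ[ℚ] W →ₗ[ℚ] ℚ) (halt : ∀ v, ω₀ v v = 0)
    (hnondeg : ∀ u, (∀ v, ω₀ v u = 0) → u = 0) (hω₀ : IsHodgeBilinear per ω₀)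
    -- the action of the Galois group on the Tate module
    {Γ : Type} [Group Γ] (ρ : Representation ℚ_[ℓ] Γ (ℚ_[ℓ] ⊗[ℚ] W)) (χ : Γ →* ℚ_[ℓ])
    (hω : ∀ s u v, bcb ℚ_[ℓ] ω₀ (ρ s u) (ρ s v) = χ s * bcb ℚ_[ℓ] ω₀ u v)
    -- the theorems of Faltings
    (hss : FiniteIndexSemisimple ρ) (hF : FaltingsEnd per (incl ℚ_[ℓ] W) ρ)
    -- the places
    (hplaces : ∀ U, StronglyIrreducible (bcr ρ (AlgebraicClosure ℚ_[ℓ])) U →
      2 ≤ finrank (AlgebraicClosure ℚ_[ℓ]) U →
      HasLocalOperators (bcr ρ (AlgebraicClosure ℚ_[ℓ])) (bcc χ (AlgebraicClosure ℚ_[ℓ])) U) :
    (NoSelfDualLines (bcr ρ (AlgebraicClosure ℚ_[ℓ])) (bcc χ (AlgebraicClosure ℚ_[ℓ])) →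
      NoProperTwists (bcr ρ (AlgebraicClosure ℚ_[ℓ])) (bcc χ (AlgebraicClosure ℚ_[ℓ])) →
      CentreTheorem per (Pool.Agent.TH118.MT.extend (k := ℚ_[ℓ]) (AlgebraicClosure ℚ_[ℓ])
        (incl ℚ_[ℓ] W)) (bcr ρ (AlgebraicClosure ℚ_[ℓ])) (bcc χ (AlgebraicClosure ℚ_[ℓ])) →
      MumfordTate per (incl ℚ_[ℓ] W) ρ χ) ∧
    ((∀ U, StronglyIrreducible (bcr ρ (AlgebraicClosure ℚ_[ℓ])) U →
        IsSymplectic (bcr ρ (AlgebraicClosure ℚ_[ℓ])) (bcc χ (AlgebraicClosure ℚ_[ℓ])) U) →
      MumfordTateStrong per (incl ℚ_[ℓ] W) ρ χ) := by
  refine ⟨fun hlines htwists hcen => ?_, fun hsym => ?_⟩
  · exact Pool.Agent.Y144.MT.mt_of_one ℓ per ω₀ halt hnondeg hω₀ ρ χ hω hss hF hcen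
      (fun ω hl hinv hpr U hU h2 => one_of_local ω hl hinv hpr hU (hplaces U hU h2)) hlines htwists
  · exact Pool.Agent.Y144.MT.mt_strong_of_one ℓ per ω₀ halt hnondeg hω₀ ρ χ hω hss hF hsym
      (fun ω hl hinv hpr U hU h2 => one_of_local ω hl hinv hpr hU (hplaces U hU h2))

end Pool.Agent.Results.MP_33b3f9_ag.MixedPlaces
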