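import Mathlib
import Pool.Agent.Y144.MT.Core
import Pool.Agent.R930.Three
import Pool.Agent.R930.Notions

/-!
# The Mumford-Tate conjecture for abelian varieties with one good place for each geometric piece

Let `A` be an abelian variety over a number field (or a finitely generated field of complex numbers),
`W = H_1(A, ℚ)` with the polarization form `ω₀`, `T` the tangent space at the origin and `per : W → T`
the inclusion; `V = ℚ_ℓ ⊗ W` is the rational Tate module, with the action `ρ` of the Galois group `Γ`
and the cyclotomic character `χ`; `b` is a basis of the lattice `T_ℓ(A)`. Let `K` be the algebraic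
closure of `ℚ_ℓ` and `X = K ⊗ V`. A subspace of `X` is *strongly irreducible* if it is a minimal
nonzero subspace stable under a subgroup of finite index. If the endomorphism ring of `A` over the
algebraic closure is `ℤ` there is just one, `X`.

Hypotheses.

* `hss`, `hF`: the theorems of Faltings (semisimplicity; the endomorphisms of `V` which commute with
  an open subgroup of the Galois group are combinations of endomorphisms of `A`).
* `hfrobenius`: the Frobenius elements at the places of good reduction away from `ℓ` (`IsFrob`: the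
  characteristic polynomial has integral coefficients and roots of absolute value `p ^ (a / 2)`)
  are dense (Chebotarev). There is NO condition on the reductions at most places.
* `hpieces`: for every strongly irreducible subspace `U` of dimension at least two there is ONE
  place (which may depend on `U`) with Frobenius element `γ` such that (`IsGoodPiece`)
  - the reduction has two slopes (for instance, it is ordinary), and for one embedding of the
    eigenvalues of `γ` in the algebraic closure of `ℚ_p` the multiplicity of one slope on `U` is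
    prime to the dimension of `U`; or
  - `U` is symplectic (types I and II), and the reduction has at most three slopes `s`, `1 / 2`, `1 - s`
    such that for one embedding `s` is simple on `U` (abelian varieties of K3 type); or the
    reduction has two slopes and exactly one eigenvalue on `U` has prescribed slopes with respect
    to two embeddings; or
  - `U` is symplectic of dimension at most four, the reduction has at most three slopes and an
    outer one occurs on `U`; or
  - there is an element `γ` with `(γ - 1) ^ 2 = 0` (a place of semistable reduction) such that `γ - 1` has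
    rank one on `U`, or rank two and `U` is symplectic.
  Lines are not self-dual; and if `U` is not self-dual, its twists which occur in `X` are isomorphic
  to `U`, or both slopes occur on `U` for all embeddings and for a dense set of Frobenius elements with
  two slopes.

Theorem.  The Mumford-Tate conjecture holds for `A`: all Tate classes in all the tensor powers
`(H^1)^{⊗ 2 m}(m)` are linear combinations of Hodge classes (`hcen` is the theorem that the
Mumford-Tate conjecture holds for the centres of the groups; Vasiu, Ullmo-Yafaev).  If all strongly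
irreducible subspaces are symplectic (types I, II) it holds, without `hcen`, in the strong form: all
Tate classes are combinations of products of Hodge classes of degree two, so that the Mumford-Tate group
and the `ℓ`-adic monodromy group are equal to the full group of the symplectic similitudes that commute
with `End(A)`, and the Hodge and the Tate conjecture hold for all powers of `A`.

Examples.  `End(A) = ℤ` and one place of good reduction with the slopes `0`, `1 / 2`, `1` where `0` and
`1` are simple (and any Frobenius on the part of slope `1 / 2`), in all dimensions.  All products of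
powers of abelian surfaces and of elliptic curves without complex multiplication and abelian varieties
with real multiplication by a totally real field of degree `dim A` or `dim A / 2`, together with all
abelian varieties of type IV which have on every piece a place of ordinary reduction with coprime
multiplicities.

The theorem on the Lie algebra is that of `MP_021685_ag` (`OnePlaceForEachPiece`, on Tate classes); the
comparison with Hodge classes is new.
-/

set_option autoImplicit false

namespace Pool.Agent.Results.MP_33b3f9_ag.OnePlaceForEachPiece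

open Module TensorProduct Polynomial Pool.Agent.Y126.Notions Pool.Agent.R930
  Pool.Agent.R930.Notions

noncomputable section

/-- The good pieces, see the description above. -/
def IsGoodPiece {K X Γ : Type} [Field K] [CharZero K] [AddCommGroup X] [Module K X] [Group Γ]
    (R : Representation K Γ X) (χ : Γ →* K) (F : Γ → ℕ → ℕ → ℤ[X] → Prop) (U : Submodule K X) :
    Prop :=
  CoprimeSlopes R F U ∨
  (IsSymplectic R χ U ∧ (SimpleSlope R F U ∨ (finrank K U ≤ 4 ∧ OuterSlope R F U))) ∨
  ∃ γ : Γ, (R γ - 1) * (R γ - 1) = 0 ∧ (finrank K (U.map (R γ - 1)) = 1 ∨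
    (finrank K (U.map (R γ - 1)) = 2 ∧ IsSymplectic R χ U))

/-- All strongly irreducible subspaces of dimension at least two are good pieces, and those of
dimension one are not self-dual; and if a strongly irreducible subspace `U` of dimension at least two
is not self-dual, then for a dense set of Frobenius elements with two slopes both slopes occur on `U`
for all embeddings, or the twists of `U` which occur as subspaces are isomorphic to `U`. -/
def OnlyGoodPieces {K X Γ : Type} [Field K] [CharZero K] [AddCommGroup X] [Module K X] [Group Γ]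
    [TopologicalSpace Γ] (R : Representation K Γ X) (χ : Γ →* K)
    (F : Γ → ℕ → ℕ → ℤ[X] → Prop) : Prop :=
  (∀ U, StronglyIrreducible R U → finrank K U = 1 → ¬AreDual R χ U U) ∧
  ∀ U, StronglyIrreducible R U → 2 ≤ finrank K U → IsGoodPiece R χ F U ∧
    (¬AreDual R χ U U → Dense {γ | BothSlopes R F U γ} ∨ TwistsTrivial R U)

open Pool.Agent.H204R3.SP Pool.Agent.H204R3.GP Pool.Agent.W522.U Pool.Agent.TH118.MT

theorem result (ℓ : ℕ) [Fact ℓ.Prime]
    -- the complex abelian variety `A` with a polarization
    {W T : Type} [AddCommGroup W] [Module ℚ W] [FiniteDimensional ℚ W] [AddCommGroup T] [Module ℂ T]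
    (per : W →+ T) (ω₀ : W →ₗ[ℚ] W →ₗ[ℚ] ℚ) (halt : ∀ v, ω₀ v v = 0)
    (hnondeg : ∀ u, (∀ v, ω₀ v u = 0) → u = 0) (hω₀ : IsHodgeBilinear per ω₀)
    -- the action of the Galois group on the Tate module
    {Γ : Type} [Group Γ] [TopologicalSpace Γ] [IsTopologicalGroup Γ]
    (ρ : Representation ℚ_[ℓ] Γ (ℚ_[ℓ] ⊗[ℚ] W)) (χ : Γ →* ℚ_[ℓ])
    (hω : ∀ s u v, bcb ℚ_[ℓ] ω₀ (ρ s u) (ρ s v) = χ s * bcb ℚ_[ℓ] ω₀ u v)
    -- the theorems of Faltings
    (hss : FiniteIndexSemisimple ρ) (hF : FaltingsEnd per (incl ℚ_[ℓ] W) ρ)
    -- the lattice, and the Frobenius elements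
    {n : ℕ} (b : Basis (Fin n) ℚ_[ℓ] (ℚ_[ℓ] ⊗[ℚ] W))
    (hintegral : ∀ g i j, ‖LinearMap.toMatrix b b (ρ g) i j‖ ≤ 1)
    (hcontinuous : ∀ i j, Continuous fun g => LinearMap.toMatrix b b (ρ g) i j)
    (hfrobenius : Dense {γ | IsFrob ρ χ γ})
    -- the good pieces
    (hpieces : OnlyGoodPieces (bcr ρ (AlgebraicClosure ℚ_[ℓ])) (bcc χ (AlgebraicClosure ℚ_[ℓ]))
      (IsFrobenius ρ χ)) :
    (CentreTheorem per (Pool.Agent.TH118.MT.extend (k := ℚ_[ℓ]) (AlgebraicClosure ℚ_[ℓ])
        (incl ℚ_[ℓ] W)) (bcr ρ (AlgebraicClosure ℚ_[ℓ])) (bcc χ (AlgebraicClosure ℚ_[ℓ])) →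
      MumfordTate per (incl ℚ_[ℓ] W) ρ χ) ∧
    ((∀ U, StronglyIrreducible (bcr ρ (AlgebraicClosure ℚ_[ℓ])) U →
        IsSymplectic (bcr ρ (AlgebraicClosure ℚ_[ℓ])) (bcc χ (AlgebraicClosure ℚ_[ℓ])) U) →
      MumfordTateStrong per (incl ℚ_[ℓ] W) ρ χ) := by
  have hlie := lieGenerate_of_dense hintegral hcontinuous hfrobenius
  have h1 : ∀ ω : (AlgebraicClosure ℚ_[ℓ] ⊗[ℚ_[ℓ]] (ℚ_[ℓ] ⊗[ℚ] W)) →ₗ[AlgebraicClosure ℚ_[ℓ]]
        (AlgebraicClosure ℚ_[ℓ] ⊗[ℚ_[ℓ]] (ℚ_[ℓ] ⊗[ℚ] W)) →ₗ[AlgebraicClosure ℚ_[ℓ]]
        AlgebraicClosure ℚ_[ℓ],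
      (∀ u, (∀ v, ω u v = 0) → u = 0) →
      (∀ g u v, ω (bcr ρ (AlgebraicClosure ℚ_[ℓ]) g u) (bcr ρ (AlgebraicClosure ℚ_[ℓ]) g v) =
        bcc χ (AlgebraicClosure ℚ_[ℓ]) g * ω u v) → HasProj (bcr ρ (AlgebraicClosure ℚ_[ℓ])) →
      ∀ U, StronglyIrreducible (bcr ρ (AlgebraicClosure ℚ_[ℓ])) U →
      2 ≤ finrank (AlgebraicClosure ℚ_[ℓ]) U →
      ∃ e ∈ lieT (bcr ρ (AlgebraicClosure ℚ_[ℓ])) (bcc χ (AlgebraicClosure ℚ_[ℓ])), e * e = 0 ∧
        finrank (AlgebraicClosure ℚ_[ℓ]) (U.map e) = 1 := by
    intro ω hl hinv hpr U hU h2
    rcases (hpieces.2 U hU h2).1 with hcop | ⟨hs, h | ⟨h4, h⟩⟩ | ⟨γ, hγ, h | ⟨h, hs⟩⟩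
    · exact one_of_slopes ω hl hinv hpr hlie hU h2 (hasCoprime hcop)
    · exact one_of_simple ω hl hinv hpr hlie hU hs (hasSimple h)
    · exact one_of_four ω hl hinv hpr hlie hU hs h4 (hasSlope h)
    · exact Pool.Agent.Y126.Toric.one_of_gcd ω hl hinv hpr hU hγ
        fun p hp => ⟨1, Or.inl h.symm, hp.one_lt.ne' ∘ Nat.dvd_one.1⟩
    · exact Pool.Agent.Y126.Toric.one_of_alt ω hl hinv hpr hU hs hγ (Or.inl h.symm)
        (Or.inl rfl)
  refine ⟨fun hcen => ?_, fun hsym => ?_⟩
  · refine Pool.Agent.Y144.MT.mt_of_one ℓ per ω₀ halt hnondeg hω₀ ρ χ hω hss hF hcen h1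
      hpieces.1 ?_
    intro U U' hU hU' h2 hd ψ hψ
    rcases (hpieces.2 U hU h2).2 hd with h | h
    · exact twist_trivial hintegral hcontinuous hU h hψ
    · exact h U' hU' ψ hψ
  · exact Pool.Agent.Y144.MT.mt_strong_of_one ℓ per ω₀ halt hnondeg hω₀ ρ χ hω hss hF hsym h1

end

end Pool.Agent.Results.MP_33b3f9_ag.OnePlaceForEachPiece
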