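import Pool.Agent.R914.LG.One

/-!
# One Tate class of codimension two decides the Mumford–Tate conjecture

Let `A` be an abelian variety over a finitely generated field of characteristic zero, `V = H¹(A, ℚ_ℓ)`,
`𝔤 ⊂ End V` the Lie algebra of the image of Galois (algebraic, by Bogomolov) and `𝔥 = Lie MT(A) ⊗ ℚ_ℓ`,
which contains `𝔤` (Deligne). The Mumford–Tate conjecture for `A` and `ℓ` is `𝔤 = 𝔥`.

By Faltings `End V` is a semisimple representation of `𝔤`, so that there is a `𝔤`-equivariant projection
`P` of `End V` onto `𝔤` (for example, the orthogonal projection for the trace form, which is given by the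
Casimir element of `𝔤`). Up to a twist, `P` is an element of `V ⊗ V ⊗ V* ⊗ V*`, hence a Tate class of
codimension two on `A⁴`.

*Theorem.* The Mumford–Tate conjecture holds for `A` and `ℓ` if and only if the single class `P` is a Hodge
class (a combination of Hodge classes with coefficients in `ℚ_ℓ`), for one or for all choices of `P`.

In particular it holds if `P` is algebraic; so the Tate conjecture in codimension two for `A⁴`, even for
one class, implies the Mumford–Tate conjecture for `A`.

The hypotheses are known theorems: semisimplicity (Faltings), `commutant 𝔤 = End(A) ⊗ ℚ_ℓ = commutant 𝔥`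
(Faltings, Riemann); `SameDet`: the centre `Z` of `End(A) ⊗ ℚ_ℓ` and the determinant of `V` over `Z`, a
motive of CM type, for which the Mumford–Tate conjecture is known (Shimura, Taniyama, Pohlmann; Serre,
Deligne).

*Proof.* If `P` commutes with the action of `𝔥`, its image `𝔤` is an ideal of `𝔥`. The complement `𝔠` of
`𝔤` in `𝔥` commutes with `𝔤`, hence consists of elements of `End(A) ⊗ ℚ_ℓ`, which commute with `𝔥`; so
it lies in the centre `Z`, and the comparison of the determinants, together with the non-degeneracy of the
trace form on `Z`, shows that `𝔠 ⊂ 𝔤`.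
-/

namespace Pool.Agent.Results.MP_33b3f9_ag.OneTateClass

open Pool.Agent.R914.LG

/-- **The Mumford–Tate conjecture for `A` and `ℓ` is equivalent to the assertion that one (every) Tate
class of degree four which is a projection of `End V` onto the Lie algebra `𝔤` is a Hodge class.** -/
theorem result {F V : Type} [Field F] [CharZero F] [AddCommGroup V] [Module F V]
    [FiniteDimensional F V] {𝔤 𝔥 : Submodule F (Module.End F V)} (hlie : IsLie 𝔤)
    (h𝔤 : IsReductive 𝔤) (hle : 𝔤 ≤ 𝔥) (hcomm : commutant 𝔤 ⊆ commutant 𝔥)
    (hdet : SameDet 𝔤 𝔥) :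
    (∃ P, IsProjector P 𝔤) ∧ ∀ P, IsProjector P 𝔤 → (𝔤 = 𝔥 ↔ P ∈ tate 𝔥) :=
  ⟨exists_projector hlie h𝔤, fun _ hP => eq_iff_projector hlie hle h𝔤 hdet hcomm hP⟩

end Pool.Agent.Results.MP_33b3f9_ag.OneTateClass
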