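import Pool.Agent.R940.TnN

/-!
# The Mumford–Tate conjecture and the number of Tate tensors

`A` is an abelian variety over a finitely generated field `k₁ ⊂ ℂ`, `b = 2 dim A`, `V = H¹(A)`, `K`
is an algebraic closure of `ℚ_ℓ`, `M = MT(A)(K)`, `ρ` is the Galois representation on `V ⊗ K`. The
group `M` is connected (so `M` has no proper subgroups of finite index), reductive, and contains the
image of a subgroup of finite index of the Galois group (Deligne).

`D.hodge n` and `D.tate n` are the dimensions of the spaces of the Hodge tensors and of the Tate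
tensors in `End(V^{⊗(n+1)}) ⊗ K`.

For every `a ≥ 1` either all the Tate tensors in `End(V^{⊗a})` are Hodge tensors, or
`D.tate n ≥ log(n+2)/(32a(1+log(b+1))) · D.hodge n` for all `n`, and
`D.tate n ≥ (m+2)(1 - (m+1) a b^{2(m+1)a+2} log(n+2)/n) · D.hodge n` for all `m` and `n ≥ 1`.
If moreover the images of the open subgroups are completely reducible (Faltings) and contain
infinitely many homotheties (Bogomolov), then in the first case all homogeneous polynomials of degree
`a` in the matrix entries that vanish on the image of a subgroup of finite index vanish on `M`, and the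
Mumford–Tate conjecture holds if and only if `D.tate n / D.hodge n` does not tend to infinity, if
and only if `D.tate = D.hodge`.
-/

namespace Pool.Agent.Results.MP_33b3f9_ag.TateOverHodge

open Pool.Agent.R940 Filter

universe v w

/-- **The growth law for the Mumford–Tate conjecture.** -/
theorem result {K : Type v} [Field K] [IsAlgClosed K] [CharZero K] {b : ℕ} (hb : 0 < b)
    {Γ : Type w} [Group Γ] (D : MTPair K b Γ) :
    (∀ a : ℕ, 0 < a →
      tateSubT D.ρ (Fin a) (Fin a) = invSub D.M (Fin a) (Fin a) ∨ D.Excess a) ∧
    (D.Regular → (∀ a : ℕ, 0 < a → D.MumfordTateIn a ∨ D.Excess a) ∧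
      (D.MumfordTate ↔ ∀ n, D.tate n = D.hodge n) ∧
      (D.MumfordTate ↔ ¬ Tendsto (fun n => (D.tate n : ℝ) / D.hodge n) atTop atTop)) :=
  D.law hb

end Pool.Agent.Results.MP_33b3f9_ag.TateOverHodge
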